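import Pool.Agent.helper17.EXC.Spec

set_option autoImplicit false

open Finset

namespace Pool.Agent.EXC

variable {n : ℕ} {F : Type} [Field F]

theorem UIN_xe_zero (C : Matrix (Fin n) (Fin n) ℤ) [IsC C] (a v : Lm C F) : xe C a 0 v = v := by
  unfold xe
  simp

theorem UIN_one (C : Matrix (Fin n) (Fin n) ℤ) [IsC C] (a : Lm C F) : IsX C a 0 1 := by
  intro v
  rw [UIN_xe_zero]
  rfl

theorem UIN_eq_one (C : Matrix (Fin n) (Fin n) ℤ) [IsC C] (a : Lm C F) (g : Lm C F ≃ₗ[F] Lm C F)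
    (h : IsX C a 0 g) : g = 1 := by
  ext1 v
  rw [h v, UIN_xe_zero]
  rfl

theorem UIN_gen (C : Matrix (Fin n) (Fin n) ℤ) [IsC C] {α : Fin n → ℤ} (hα : ip C α α = 2) {t : F}
    {g : Lm C F ≃ₗ[F] Lm C F} (hg : IsX C (E C α) t g) : g ∈ GE C F :=
  Subgroup.subset_closure ⟨α, hα, t, hg⟩

theorem UIN_mem (C : Matrix (Fin n) (Fin n) ℤ) [IsC C] {i : Fin n} {γ : Fin n → ℤ}
    (hγ : ip C γ γ = 2) (hp : Pos γ) (hne : γ ≠ sr i) {t : F} {g : Lm C F ≃ₗ[F] Lm C F}
    (hg : IsX C (E C γ) t g) : g ∈ UI C F i :=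
  Subgroup.subset_closure ⟨γ, hγ, hp, hne, t, hg⟩

/-- the key step: the conjugate of a generator -/
theorem UIN_conj (hEXF : EXF_stmt) (hACT : ACT_stmt) (hCOL : COL_stmt)
    (C : Matrix (Fin n) (Fin n) ℤ) [IsC C]
    (hβ : ∀ α, ip C α α = 2 → ∃ β, ip C β β = 2 ∧ ip C α β = -1) (i : Fin n) {σ γ : Fin n → ℤ}
    (hσ : ip C σ σ = 2) (hγ : ip C γ γ = 2) (hp : Pos γ) (hne : γ ≠ sr i) (h2 : ip C σ γ ≠ -2)
    (h1 : ip C σ γ = -1 → Pos (σ + γ) ∧ σ + γ ≠ sr i) {t c : F} {g x : Lm C F ≃ₗ[F] Lm C F}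
    (hg : IsX C (E C σ) t g) (hx : IsX C (E C γ) c x) : g * x * g⁻¹ ∈ UI C F i := by
  obtain ⟨-, hE, hEx, -⟩ := hEXF n C F hβ
  obtain ⟨A1, A2, -⟩ := hACT n C F σ t hσ
  have hgG : g ∈ GE C F := UIN_gen C hσ hg
  have hconj : IsX C (g (E C γ)) c (g * x * g⁻¹) := (hEx _ (hE γ hγ)).2.2.2.2.2.2.2.1 g hgG c x hx
  have hlo := (ip_abs_le hσ hγ).1
  rcases lt_or_ge (ip C σ γ) 0 with h0 | h0
  · have h3 : ip C σ γ = -1 := by omega
    obtain ⟨hp', hne'⟩ := h1 h3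
    have hroot : ip C (σ + γ) (σ + γ) = 2 := (add_root_iff hσ hγ).2 h3
    have h4 : ip C γ (σ + γ) = 1 := by
      rw [ip_add_right, ip_comm C γ σ, h3, hγ]
      norm_num
    obtain ⟨K, -⟩ := hCOL n C F γ (σ + γ) hγ hroot
    obtain ⟨K1, -⟩ := K h4
    obtain ⟨y, -, hy⟩ := (hEx _ (hE (σ + γ) hroot)).2.2.2.2.1 (t * (sg C σ γ : F) * c)
    have h5 : g * x * g⁻¹ = x * y := by
      ext1 v
      rw [hconj v, hg (E C γ), A2 γ hγ h3]
      have h6 := K1 1 (t * (sg C σ γ : F)) c v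
      rw [one_smul, one_mul] at h6
      rw [h6, ← hy v, ← hx (y v)]
      rfl
    rw [h5]
    exact mul_mem (UIN_mem C hγ hp hne hx) (UIN_mem C hroot hp' hne' hy)
  · have h3 : g (E C γ) = E C γ := by rw [hg (E C γ), A1 γ hγ h0]
    rw [h3] at hconj
    exact UIN_mem C hγ hp hne hconj

theorem UIN (hRFP : RFP_stmt) (hEXF : EXF_stmt) (hACT : ACT_stmt) (hCOL : COL_stmt) : UIN_stmt := by
  intro n C _ F _ hβ i
  obtain ⟨-, hE, hEx, -⟩ := hEXF n C F hβ
  have hsr : ip C (sr i) (sr i) = 2 := ip_sr_self C i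
  have hsi : (sr i : Fin n → ℤ) i = 1 := by simp [sr]
  have part1 : ∀ u ∈ UI C F i, ∀ (t : F) (g : Lm C F ≃ₗ[F] Lm C F),
      (IsX C (E C (sr i)) t g ∨ IsX C (E C (-sr i)) t g) → g * u * g⁻¹ ∈ UI C F i := by
    intro u hu t g hg
    have key : UI C F i ≤ (UI C F i).comap (MulAut.conj g).toMonoidHom := by
      unfold UI
      rw [Subgroup.closure_le]
      rintro x ⟨γ, hγ, hp, hne, c, hx⟩
      show g * x * g⁻¹ ∈ UI C F i
      obtain ⟨R1, R2⟩ := (hRFP n C γ hγ hp).1 i hne |>.2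
      rcases hg with hg | hg
      · refine UIN_conj hEXF hACT hCOL C hβ i hsr hγ hp hne ?_ ?_ hg hx
        · intro h
          have h1 := eq_neg_of_ip_eq_neg_two hsr hγ h
          have h2 := hp i
          rw [h1, Pi.neg_apply, hsi] at h2
          omega
        · intro h
          have h1 : ip C γ (sr i) = -1 := by rw [ip_comm, h]
          refine ⟨?_, fun h2 => ?_⟩
          · rw [add_comm]
            exact R1 h1
          · have h3 : γ = 0 := by simpa using h2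
            rw [h3] at hγ
            simp at hγ
      · refine UIN_conj hEXF hACT hCOL C hβ i (neg_root C hsr) hγ hp hne ?_ ?_ hg hx
        · intro h
          have h1 := eq_neg_of_ip_eq_neg_two (neg_root C hsr) hγ h
          rw [neg_neg] at h1
          exact hne h1
        · intro h
          have h1 : ip C γ (sr i) = 1 := by
            rw [ip_comm]
            rw [ip_neg_left] at h
            omega
          refine ⟨?_, fun h2 => ?_⟩
          · have h3 : -sr i + γ = γ - sr i := by abel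
            rw [h3]
            exact R2 h1
          · have h3 : γ = sr i + sr i := neg_add_eq_iff_eq_add.1 h2
            rw [h3, ip_add_left, hsr] at h1
            omega
    exact key hu
  refine ⟨part1, ?_, ?_⟩
  · intro u hu
    have step : ∀ (γ : Fin n → ℤ) (c : F) (x : Lm C F ≃ₗ[F] Lm C F), ip C γ γ = 2 → Pos γ →
        IsX C (E C γ) c x → ∀ y : Lm C F ≃ₗ[F] Lm C F,
        (∃ u' ∈ UI C F i, ∃ (t : F) (g : Lm C F ≃ₗ[F] Lm C F), IsX C (E C (sr i)) t g ∧ y = u' * g) →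
        ∃ u' ∈ UI C F i, ∃ (t : F) (g : Lm C F ≃ₗ[F] Lm C F), IsX C (E C (sr i)) t g ∧
          x * y = u' * g := by
      rintro γ c x hγ hp hx y ⟨u', hu', t, g, hg, rfl⟩
      by_cases hne : γ = sr i
      · rw [hne] at hx
        refine ⟨x * u' * x⁻¹, part1 u' hu' c x (Or.inl hx), c + t, x * g, ?_, ?_⟩
        · exact (hEx _ (hE (sr i) hsr)).2.2.2.2.2.2.2.2 c t x g hx hg
        · group
      · exact ⟨x * u', mul_mem (UIN_mem C hγ hp hne hx) hu', t, g, hg, by group⟩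
    unfold UG at hu
    refine Subgroup.closure_induction_left (p := fun u _ => ∃ u' ∈ UI C F i, ∃ (t : F)
      (g : Lm C F ≃ₗ[F] Lm C F), IsX C (E C (sr i)) t g ∧ u = u' * g) ?_ ?_ ?_ hu
    · exact ⟨1, one_mem _, 0, 1, UIN_one C _, by group⟩
    · rintro x ⟨γ, hγ, hp, c, hx⟩ y - hy
      exact step γ c x hγ hp hx y hy
    · rintro x ⟨γ, hγ, hp, c, hx⟩ y - hy
      obtain ⟨z, -, hz⟩ := (hEx _ (hE γ hγ)).2.2.2.2.1 (-c)
      have h1 : IsX C (E C γ) (c + -c) (x * z) :=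
        (hEx _ (hE γ hγ)).2.2.2.2.2.2.2.2 c (-c) x z hx hz
      rw [add_neg_cancel] at h1
      have h2 : z = x⁻¹ := eq_inv_of_mul_eq_one_right (UIN_eq_one C _ _ h1)
      rw [← h2]
      exact step γ (-c) z hγ hp hz y hy
  · unfold UI UG
    refine Subgroup.closure_mono ?_
    rintro x ⟨γ, hγ, hp, -, c, hx⟩
    exact ⟨γ, hγ, hp, c, hx⟩

end Pool.Agent.EXC
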