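import Pool.Agent.helper17.EXC.SpecRA

set_option autoImplicit false

open Finset

namespace Pool.Agent.EXC

theorem CUX (hCUB : CUB_stmt) (hQUN : QUN_stmt) (hQNF : QNF_stmt) (hGMN : GMN_stmt) (hEXF : EXF_stmt) (hACT : ACT_stmt) (hDMN : DMN_stmt) (hNBR : NBR_stmt) : CUX_stmt := by
  intro n C _ F _ j0 θ δ hE g hg hcom
  have hβ := (hNBR n C j0 θ δ hE).1
  obtain ⟨D1, D2, D3, -⟩ := hDMN n C j0 θ δ hE
  obtain ⟨-, hEr, hEx, -⟩ := hEXF n C F hβ
  have hθ : ip C θ θ = 2 := hE.th2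
  obtain ⟨B1, B2, u, hu, hgu⟩ := hCUB n C F j0 θ δ hE g hg hcom
  obtain ⟨q, hq, huq⟩ := hQUN n C F j0 θ δ hE u hu
  have hgq : g (E C (-θ)) = q (E C (-θ)) := by rw [hgu, huq]
  have hq0 : ∃ t, IsX C (E C θ) t q := by
    refine hQNF n C F j0 θ δ hE q hq ?_
    intro γ hγ h1
    have h1' : ip C θ γ = 1 := by rw [ip_comm, h1]
    have hr : ip C (θ - γ) (θ - γ) = 2 := (sub_root_iff hθ hγ).2 h1'
    have hp : Pos (θ - γ) := by
      refine D3 _ hr ?_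
      rw [ip_sub_left, hθ, h1]
      norm_num
    have hne : θ - γ ≠ θ := by
      intro h
      have h2 : γ = 0 := by simpa using h
      rw [h2] at hγ
      simp at hγ
    rw [← hgq]
    exact B2 _ hr hp hne
  obtain ⟨t, ht⟩ := hq0
  have hqG : q ∈ GE C F := (hEx _ (hEr θ hθ)).2.2.2.2.2.1 q ⟨t, ht⟩
  have hqfix : ∀ γ, ip C γ γ = 2 → Pos γ → q (E C γ) = E C γ := by
    intro γ hγ hp
    rw [ht (E C γ)]
    refine (hACT n C F θ t hθ).1 γ hγ ?_
    rw [ip_comm]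
    exact D2 γ hp
  have hone : q⁻¹ * g = 1 := by
    refine hGMN n C F j0 θ δ hE (q⁻¹ * g) (mul_mem (inv_mem hqG) hg) ?_ ?_
    · intro γ hγ hp
      show q.symm (g (E C γ)) = E C γ
      rw [LinearEquiv.symm_apply_eq, B1 γ hγ hp, hqfix γ hγ hp]
    · show q.symm (g (E C (-θ))) = E C (-θ)
      rw [LinearEquiv.symm_apply_eq, hgq]
  have hfin : g = q := by
    have := inv_mul_eq_one.1 hone
    exact this.symm
  rw [hfin]
  exact ⟨t, ht⟩

end Pool.Agent.EXC
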