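import Pool.Agent.helper32.EXC.Spec11

set_option autoImplicit false

open Finset

namespace Pool.Agent.EXC

theorem T11OR8_mu_inj : ∀ i : Fin 14, mu8 2 = mu8 i → i = 2 := by decide +kernel

theorem T11OR8_cf [IsC CartanMatrix.E₈] {F : Type} [Field F] (v : Fin 14 → F) :
    cf (em8 v : Lm CartanMatrix.E₈ F) (mu8 2) = v 2 := by
  have hs : ∀ s : Finset (Fin 14), cf (∑ i ∈ s, v i • (E CartanMatrix.E₈ (mu8 i) : Lm CartanMatrix.E₈ F)) (mu8 2) =
      ∑ i ∈ s, v i * (if mu8 2 = mu8 i then 1 else 0) := by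
    intro s
    induction s using Finset.induction_on with
    | empty => simp
    | insert a s ha ih =>
      rw [Finset.sum_insert ha, Finset.sum_insert ha, cf_add, ih, cf_smul, cf_E _ (mu8_root a)]
  unfold em8
  rw [hs, Finset.sum_eq_single (2 : Fin 14)]
  · simp
  · intro i _ hi
    rw [if_neg (fun h => hi (T11OR8_mu_inj i h)), mul_zero]
  · intro h
    exact absurd (Finset.mem_univ _) h

theorem T11OR8 (hT11WA8 : T11WA8_stmt) : T11OR8_stmt := by
  intro _ F _ hβ z hz N hN
  obtain ⟨-, -, -, -, hw⟩ := hT11WA8 F hβ zw8 zw8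
  -- the action of `z` on integer vectors
  have h1 : ∀ v : Fin 14 → ℤ, z (em8 fun i => (v i : F)) = em8 fun i => (az8 zw8 v i : F) := by
    intro v
    rw [hz, hw]
  have h2 : ∀ (k : ℕ) (v : Fin 14 → ℤ), (z ^ k) (em8 fun i => (v i : F)) =
      em8 fun i => ((az8 zw8)^[k] v i : F) := by
    intro k
    induction k with
    | zero =>
      intro v
      rw [pow_zero]
      rfl
    | succ k ih =>
      intro v
      rw [pow_succ, LinearEquiv.mul_apply, h1, ih, Function.iterate_succ_apply]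
  set w : Lm CartanMatrix.E₈ F := em8 fun i => (e8v i : F) with hwdef
  have h3 : (z ^ 11) w = w := by
    rw [hwdef, h2, az8_11]
  have h4 : z w ≠ w := by
    intro h
    rw [hwdef, h1] at h
    have h5 := congrArg (fun x => cf x (mu8 2)) h
    simp only [T11OR8_cf] at h5
    rw [az8_1.1, az8_1.2] at h5
    simp at h5
  have h5 : (z ^ N) w = w := by
    rw [hN]
    rfl
  by_contra hdvd
  apply h4
  have hcop : Nat.Coprime 11 N := (Nat.Prime.coprime_iff_not_dvd (by norm_num)).2 hdvd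
  let S : Subgroup (Lm CartanMatrix.E₈ F ≃ₗ[F] Lm CartanMatrix.E₈ F) := MulAction.stabilizer _ w
  have m1 : z ^ 11 ∈ S := h3
  have m2 : z ^ N ∈ S := h5
  have m3 : z ∈ S := by
    have hb := Nat.gcd_eq_gcd_ab 11 N
    rw [hcop] at hb
    have : z = (z ^ 11) ^ (Nat.gcdA 11 N) * (z ^ N) ^ (Nat.gcdB 11 N) := by
      rw [← zpow_natCast z 11, ← zpow_natCast z N, ← zpow_mul, ← zpow_mul, ← zpow_add]
      have h6 : ((11 : ℕ) : ℤ) * Nat.gcdA 11 N + (N : ℤ) * Nat.gcdB 11 N = 1 := by
        rw [← hb]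
        rfl
      rw [h6, zpow_one]
    rw [this]
    exact S.mul_mem (S.zpow_mem m1 _) (S.zpow_mem m2 _)
  exact m3

end Pool.Agent.EXC
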